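import Pool.Agent.H77.PLF.Gux

/-!
# H70-UE-GUE: the upper bound up to a power of the logarithm, from the P-level to `G` (MP_b39724_nt)

* `PUbe p M c`: `PUb` of H77/PLF with the real exponent `N - 1 + δ`, for every `δ > 0`.
* `gcnte`, `guxe`: as `gcnt`, `gux` of H77/PLF/Gux.lean.
-/

set_option autoImplicit false

open scoped NumberField
open IsDedekindDomain H38.ML
open scoped Classical

noncomputable section

namespace H70.UE

open H63.MA H38.BB H38.BG H57.PC H57.BRA H63.BU H77.PC3 H57.CC H38.AS H77.S0T H77.AB H77.FLD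
  H77.PLF

/-- (U) with the exponent `N - 1 + δ` -/
def PUbe (p M : ℕ) {N : ℕ} {P : Type} [Group P] (c : CL p N P) : Prop :=
  ∀ (K : IntermediateField ℚ QBar) [NumberField K] (ζ : K) (_ : IsPrimitiveRoot ζ p) (z : K)
    (_ : IsPrimitiveRoot z (p ^ M)) (D : RD K p ζ) (L : LDs D.toRD0 QBar) (η δ : ℝ), 0 < η →
    0 < δ → ∃ C : ℝ, 0 < C ∧ ∀ (E : Finset (Pl K)) (Y : ℝ), 1 ≤ Y →
      ∀ Rs : Finset (Gal(QBar/K) →* P), (∀ ψ ∈ Rs, ψ ∈ PU L c E Y) →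
        (Rs.card : ℝ) ≤ C * nr E ^ η * Y * (1 + Real.log Y) ^ ((N : ℝ) - 1 + δ)

theorem gcnte {K : IntermediateField ℚ QBar} [NumberField K] {p : ℕ} {ζ : K} {N : ℕ}
    {G P H : Type}
    [Group G] [Finite G] [Group P] [Group H] (hp : p.Prime)
    (hζ : IsPrimitiveRoot ζ p) {M : ℕ} {z₂ : K} (hz2 : IsPrimitiveRoot z₂ (p ^ M))
    (D : RD K p ζ) (L : LDs D.toRD0 QBar) (hnil : Group.IsNilpotent G) (Q : GX p N G P H)
    (hP : IsPGroup p P) (hN : 1 ≤ N) (hU : PUbe p M Q.cP) (z : K) (hz : IsPrimitiveRoot z (Nat.card G))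
    (hS : ∀ v : Pl K, ((Nat.card G : ℕ) : 𝓞 K) ∈ v.asIdeal → v ∈ D.S0) (a : ℕ) (ha : 0 < a)
    (ix : Subgroup G → ℕ) (h1 : ∀ H, H ≠ ⊥ → a ≤ ix H)
    (h2 : ∀ g : G, g ≠ 1 → ix (Subgroup.zpowers g) ≤ a → ∃ i, IsConj g (Q.cl.g i))
    (η δ : ℝ) (hη : 0 < η) (hδ : 0 < δ) :
    ∃ C : ℝ, 0 < C ∧ ∀ (B : ℝ) (E : Finset (Pl K)), 3 ≤ B → ∀ Rs : Finset (Gal(QBar/K) →* G),
      (∀ φ ∈ Rs, H38.ML.FT φ ∧ Function.Surjective φ ∧ (∀ T : Finset (Pl K),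
        (∀ v ∈ T, v ∉ D.S0) → ∏ v ∈ T, (nm v : ℝ) ^ ix ((inr L v).map φ) ≤ B) ∧
        ∀ v, v ∈ E ↔ Rm L φ v ∧ ∀ i, ¬ TyC Q.cl L φ i v) →
      (Rs.card : ℝ) ≤ C * ((Nat.card G : ℝ) ^ E.card * nr E ^ η *
        ∏ v ∈ E, (nm v : ℝ) ^ (-((co a v : ℝ) / (a : ℝ)))) *
          (B ^ (1 / (a : ℝ)) * Real.log B ^ ((N : ℝ) - 1 + δ)) ∧ (Rs.Nonempty → nr E ≤ B) := by
  have hfin : Fintype G := Fintype.ofFinite G
  have haR : (0 : ℝ) < (a : ℝ) := by exact_mod_cast ha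
  have ha1 : (1 : ℝ) ≤ (a : ℝ) := by exact_mod_cast ha
  obtain ⟨C₀, hC₀⟩ := ugsr D.toRD0 L (Nat.card G) Nat.card_pos z hz hS G hnil dvd_rfl
  obtain ⟨C₂, hC₂, hub⟩ := hU K ζ hζ z₂ hz2 D L η δ hη hδ
  have he0 : 0 ≤ (N : ℝ) - 1 + δ := by
    have : (1 : ℝ) ≤ N := by exact_mod_cast hN
    linarith
  refine ⟨(C₀ + 1) * C₂ * 2 ^ ((N : ℝ) - 1 + δ), by positivity, ?_⟩
  intro B E hB Rs hRs
  have hB1 : 1 ≤ B := by linarith
  have hB0 : 0 < B := by linarith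
  have hlog1 : 1 ≤ Real.log B := by
    rw [Real.le_log_iff_exp_le hB0]
    exact Real.exp_one_lt_three.le.trans hB
  have hnr := one_le_nr E
  have hpr : 0 ≤ ∏ v ∈ E, (nm v : ℝ) ^ (-((co a v : ℝ) / (a : ℝ))) :=
    Finset.prod_nonneg fun v _ => Real.rpow_nonneg (Nat.cast_nonneg _) _
  have hrhs : 0 ≤ (C₀ + 1) * C₂ * 2 ^ ((N : ℝ) - 1 + δ) * ((Nat.card G : ℝ) ^ E.card * nr E ^ η *
        ∏ v ∈ E, (nm v : ℝ) ^ (-((co a v : ℝ) / (a : ℝ)))) *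
          (B ^ (1 / (a : ℝ)) * Real.log B ^ ((N : ℝ) - 1 + δ)) := by positivity
  rcases Rs.eq_empty_or_nonempty with h0 | ⟨φ₀, hφ₀⟩
  · rw [h0, Finset.card_empty, Nat.cast_zero]
    exact ⟨hrhs, fun h => absurd h Finset.not_nonempty_empty⟩
  -- the size of the parameters
  have hcn : ∀ φ ∈ Rs, ∀ f : Fin N → Finset (Pl K), (∀ i v, v ∈ f i ↔ TyC Q.cl L φ i v) →
      ∏ i, nr (f i) ≤ UY B a E ∧ Dj f ∧ 1 ≤ UY B a E ∧ nr E ≤ B := by
    intro φ hφ f hf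
    obtain ⟨r1, -, r2, r3⟩ := hRs φ hφ
    obtain ⟨g1, g2, -, g3, g4, -⟩ :=
      ccnt_nr hp hζ D.toRD0 L Q.cl hS a ha ix h1 h2 φ r1 B r2 f E hf r3
    exact ⟨g1, g2, g3, g4⟩
  have hsets : ∀ φ ∈ Rs, ∃ f : Fin N → Finset (Pl K), ∀ i v, v ∈ f i ↔ TyC Q.cl L φ i v := by
    intro φ hφ
    obtain ⟨f, -, hf, -⟩ := csets L Q.cl φ (hRs φ hφ).1
    exact ⟨f, hf⟩
  obtain ⟨f₀, hf₀⟩ := hsets φ₀ hφ₀
  obtain ⟨-, -, hUY1, hEB⟩ := hcn φ₀ hφ₀ f₀ hf₀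
  refine ⟨?_, fun _ => hEB⟩
  have hUY := uy_le B hB1 a E
  have hUY0 : 0 ≤ UY B a E := hUY.1
  have hlogU : Real.log (UY B a E) ≤ Real.log B := by
    have h5 : UY B a E ≤ B := by
      refine hUY.2.trans ?_
      calc B ^ (1 / (a : ℝ)) ≤ B ^ (1 : ℝ) := by
            refine Real.rpow_le_rpow_of_exponent_le hB1 ?_
            rw [div_le_one haR]
            exact ha1
        _ = B := Real.rpow_one B
    exact Real.log_le_log (by linarith) h5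
  have hlogU0 : 0 ≤ Real.log (UY B a E) := Real.log_nonneg hUY1
  have h6 : (1 + Real.log (UY B a E)) ^ ((N : ℝ) - 1 + δ) ≤ (2 * Real.log B) ^ ((N : ℝ) - 1 + δ) :=
    Real.rpow_le_rpow (by linarith) (by linarith) he0
  -- the components in `P`
  have hPU : ∀ φ ∈ Rs, Q.pr.comp φ ∈ PU L Q.cP E (UY B a E) := by
    intro φ hφ
    obtain ⟨r1, r2, r3, r4⟩ := hRs φ hφ
    obtain ⟨f, hf⟩ := hsets φ hφ
    obtain ⟨g1, g2, -, -⟩ := hcn φ hφ f hf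
    have hty : ∀ v, v ∉ D.S0 → v ∉ E → (∀ τ ∈ inr L v, φ τ = 1) ∨ ∃ i, TyC Q.cl L φ i v := by
      intro v hv hvE
      by_cases h : ∀ τ ∈ inr L v, φ τ = 1
      · exact Or.inl h
      · right
        by_contra hcon
        push Not at hcon h
        exact hvE ((r4 v).2 ⟨⟨hv, h⟩, hcon⟩)
    refine ⟨ft_comp _ _ r1, Q.prs.comp r2, fun v hv hvE => ?_, fun T hT => ?_⟩
    · rcases hty v hv hvE with h | ⟨i, hi⟩
      · exact Or.inl fun τ hτ => by rw [MonoidHom.comp_apply, h τ hτ, map_one]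
      · exact Or.inr ⟨i, ((gx_ty hp Q hP L φ i v).1 hi).1⟩
    · have hsub : T ⊆ Finset.univ.biUnion f := by
        intro v hv
        obtain ⟨g5, g6, g7⟩ := hT v hv
        rcases hty v g5 g6 with h | ⟨i, hi⟩
        · exact absurd (fun τ hτ => by rw [MonoidHom.comp_apply, h τ hτ, map_one]) g7
        · exact Finset.mem_biUnion.2 ⟨i, Finset.mem_univ _, (hf i v).2 hi⟩
      calc ∏ v ∈ T, (nm v : ℝ) ≤ ∏ v ∈ Finset.univ.biUnion f, (nm v : ℝ) := by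
            rw [← Finset.prod_sdiff hsub]
            refine le_mul_of_one_le_left (Finset.prod_nonneg fun v _ => Nat.cast_nonneg _) ?_
            exact one_le_nr _
        _ = ∏ i, nr (f i) := by
            rw [Finset.prod_biUnion fun i _ j _ hij => g2 i j hij]
            rfl
        _ ≤ _ := g1
  have h3 := fun v => uinr_cyc L (Nat.card G) hS (H := G) rfl Rs (fun φ hφ => (hRs φ hφ).1) v
  choose τ hτ hτ2 using h3
  -- the labels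
  obtain ⟨lab, hlab⟩ : ∃ lab : (Gal(QBar/K) →* G) → (↥E → G), lab = fun φ v => φ (τ v.1) :=
    ⟨_, rfl⟩
  have hagree : ∀ φ ∈ Rs, ∀ φ' ∈ Rs, lab φ = lab φ' → ∀ v ∈ E, ∀ σ ∈ inr L v, φ σ = φ' σ := by
    intro φ hφ φ' hφ' h v hv σ hσ
    obtain ⟨k, hk⟩ := hτ2 v σ hσ
    have h4 : φ (τ v) = φ' (τ v) := by
      rw [hlab] at h
      exact congrFun h ⟨v, hv⟩
    rw [hk φ hφ, hk φ' hφ', h4]
  set A : Finset (Gal(QBar/K) →* P) := Rs.image fun φ => Q.pr.comp φ with hA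
  have hAc : (A.card : ℝ) ≤ C₂ * nr E ^ η * UY B a E * (1 + Real.log (UY B a E)) ^ ((N : ℝ) - 1 + δ) := by
    refine hub E (UY B a E) hUY1 A fun ψ hψ => ?_
    obtain ⟨φ, hφ, rfl⟩ := Finset.mem_image.1 hψ
    exact hPU φ hφ
  have hfib : ∀ x ∈ A ×ˢ (Finset.univ : Finset (↥E → G)),
      (Rs.filter fun φ => (Q.pr.comp φ, lab φ) = x).card ≤ C₀ := by
    intro x _
    refine hC₀ _ (fun φ hφ => (hRs φ (Finset.mem_filter.1 hφ).1).1) ?_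
    intro φ hφ φ' hφ' v hv σ hσ
    obtain ⟨hφ, e1⟩ := Finset.mem_filter.1 hφ
    obtain ⟨hφ', e2⟩ := Finset.mem_filter.1 hφ'
    by_cases hvE : v ∈ E
    · exact hagree φ hφ φ' hφ' ((congrArg Prod.snd e1).trans (congrArg Prod.snd e2).symm) v hvE σ
        hσ
    · have key : ∀ φ ∈ Rs, Q.ph (φ σ) = 1 := by
        intro φ hφ
        obtain ⟨r1, r2, r3, r4⟩ := hRs φ hφ
        by_cases h : ∀ τ ∈ inr L v, φ τ = 1
        · rw [h σ hσ, map_one]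
        · by_cases h' : ∃ i, TyC Q.cl L φ i v
          · obtain ⟨i, hi⟩ := h'
            exact ((gx_ty hp Q hP L φ i v).1 hi).2 σ hσ
          · push Not at h h'
            exact absurd ((r4 v).2 ⟨⟨hv, h⟩, h'⟩) hvE
      refine Q.inj _ _ ?_ ((key φ hφ).trans (key φ' hφ').symm)
      exact DFunLike.congr_fun ((congrArg Prod.fst e1).trans (congrArg Prod.fst e2).symm) σ
  have hcard : Rs.card ≤ (A.card * Fintype.card (↥E → G)) * C₀ := by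
    have h7 := Finset.card_eq_sum_card_fiberwise (f := fun φ => (Q.pr.comp φ, lab φ)) (s := Rs)
      (t := A ×ˢ (Finset.univ : Finset (↥E → G))) (fun φ hφ => by
        rw [Finset.coe_product]
        exact ⟨Finset.mem_image.2 ⟨φ, hφ, rfl⟩, Finset.mem_coe.2 (Finset.mem_univ _)⟩)
    rw [h7]
    refine (Finset.sum_le_sum hfib).trans ?_
    rw [Finset.sum_const, Finset.card_product, Finset.card_univ, smul_eq_mul]
  have hcard2 : (Rs.card : ℝ) ≤ (A.card : ℝ) * (Nat.card G : ℝ) ^ E.card * C₀ := by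
    have h7 : Fintype.card (↥E → G) = Nat.card G ^ E.card := by
      rw [Fintype.card_fun, Fintype.card_coe, Nat.card_eq_fintype_card]
    rw [h7] at hcard
    exact_mod_cast hcard
  have hg0 : (0 : ℝ) ≤ (Nat.card G : ℝ) ^ E.card := by positivity
  calc (Rs.card : ℝ) ≤ (A.card : ℝ) * (Nat.card G : ℝ) ^ E.card * C₀ := hcard2
    _ ≤ (C₂ * nr E ^ η * UY B a E * (2 * Real.log B) ^ ((N : ℝ) - 1 + δ)) *
        (Nat.card G : ℝ) ^ E.card * (C₀ + 1) := by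
        have h8 : (A.card : ℝ) ≤ C₂ * nr E ^ η * UY B a E * (2 * Real.log B) ^ ((N : ℝ) - 1 + δ) :=
          hAc.trans (mul_le_mul_of_nonneg_left h6 (by positivity))
        have h9 : 0 ≤ C₂ * nr E ^ η * UY B a E * (2 * Real.log B) ^ ((N : ℝ) - 1 + δ) := by positivity
        calc (A.card : ℝ) * (Nat.card G : ℝ) ^ E.card * C₀ ≤
            (C₂ * nr E ^ η * UY B a E * (2 * Real.log B) ^ ((N : ℝ) - 1 + δ)) *
              (Nat.card G : ℝ) ^ E.card * C₀ :=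
              mul_le_mul_of_nonneg_right (mul_le_mul_of_nonneg_right h8 hg0) (Nat.cast_nonneg _)
          _ ≤ _ := mul_le_mul_of_nonneg_left (by linarith) (mul_nonneg h9 hg0)
    _ = _ := by
        have e2 : UY B a E = B ^ (1 / (a : ℝ)) *
            ∏ v ∈ E, (nm v : ℝ) ^ (-((co a v : ℝ) / (a : ℝ))) := rfl
        rw [e2, Real.mul_rpow (by norm_num) (by linarith)]
        ring

theorem guxe {K : IntermediateField ℚ QBar} [NumberField K] {p : ℕ} {ζ : K} {N : ℕ}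
    {G P H : Type}
    [Group G] [Finite G] [Group P] [Group H] (hp : p.Prime)
    (hζ : IsPrimitiveRoot ζ p) {M : ℕ} {z₂ : K} (hz2 : IsPrimitiveRoot z₂ (p ^ M))
    (D : RD K p ζ) (L : LDs D.toRD0 QBar) (hnil : Group.IsNilpotent G) (Q : GX p N G P H)
    (hP : IsPGroup p P) (hN : 1 ≤ N) (hU : PUbe p M Q.cP) (z : K)
    (hz : IsPrimitiveRoot z (Nat.card G))
    (hS : ∀ v : Pl K, ((Nat.card G : ℕ) : 𝓞 K) ∈ v.asIdeal → v ∈ D.S0) (a : ℕ) (ha : 0 < a)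
    (ix : Subgroup G → ℕ) (h1 : ∀ H, H ≠ ⊥ → a ≤ ix H)
    (h2 : ∀ g : G, g ≠ 1 → ix (Subgroup.zpowers g) ≤ a → ∃ i, IsConj g (Q.cl.g i))
    (δ : ℝ) (hδ : 0 < δ) :
    ∃ C : ℝ, 0 < C ∧ ∀ B : ℝ, 3 ≤ B → ∀ Rs : Finset (Gal(QBar/K) →* G),
      (∀ φ ∈ Rs, H38.ML.FT φ ∧ Function.Surjective φ ∧ ∀ T : Finset (Pl K),
        (∀ v ∈ T, v ∉ D.S0) → ∏ v ∈ T, (nm v : ℝ) ^ ix ((inr L v).map φ) ≤ B) →
      (Rs.card : ℝ) ≤ C * (B ^ (1 / (a : ℝ)) * Real.log B ^ ((N : ℝ) - 1 + δ)) := by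
  obtain ⟨C, hC, hcnt⟩ := gcnte hp hζ hz2 D L hnil Q hP hN hU z hz hS a ha ix h1 h2
    (1 / (4 * (a : ℝ))) δ (by
      have : (0 : ℝ) < (a : ℝ) := by exact_mod_cast ha
      positivity) hδ
  obtain ⟨C₃, hC₃, hsum⟩ := usum K a ha (Nat.card G : ℝ) (Nat.cast_nonneg _)
  refine ⟨C * C₃, by positivity, fun B hB Rs hRs => ?_⟩
  have hex : ∀ φ : Gal(QBar/K) →* G, ∃ E : Finset (Pl K), φ ∈ Rs →
      ∀ v, v ∈ E ↔ Rm L φ v ∧ ∀ i, ¬ TyC Q.cl L φ i v := by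
    intro φ
    by_cases hφ : φ ∈ Rs
    · obtain ⟨-, E, -, hE⟩ := csets L Q.cl φ (hRs φ hφ).1
      exact ⟨E, fun _ => hE⟩
    · exact ⟨∅, fun h => absurd h hφ⟩
  choose e he using hex
  have hlog : 0 ≤ Real.log B := Real.log_nonneg (by linarith)
  have hX : 0 ≤ B ^ (1 / (a : ℝ)) * Real.log B ^ ((N : ℝ) - 1 + δ) :=
    mul_nonneg (Real.rpow_nonneg (by linarith) _) (Real.rpow_nonneg hlog _)
  rw [Finset.card_eq_sum_card_image e]
  push_cast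
  calc ∑ E ∈ Rs.image e, ((Rs.filter fun φ => e φ = E).card : ℝ) ≤
      ∑ E ∈ Rs.image e, C * ((Nat.card G : ℝ) ^ E.card * nr E ^ (1 / (4 * (a : ℝ))) *
        ∏ v ∈ E, (nm v : ℝ) ^ (-((co a v : ℝ) / (a : ℝ)))) *
          (B ^ (1 / (a : ℝ)) * Real.log B ^ ((N : ℝ) - 1 + δ)) := by
        refine Finset.sum_le_sum fun E _ => (hcnt B E hB _ ?_).1
        intro φ hφ
        obtain ⟨hφ, hE⟩ := Finset.mem_filter.1 hφ
        obtain ⟨r1, r2, r3⟩ := hRs φ hφ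
        refine ⟨r1, r2, r3, ?_⟩
        rw [← hE]
        exact he φ hφ
    _ = C * (B ^ (1 / (a : ℝ)) * Real.log B ^ ((N : ℝ) - 1 + δ)) *
        ∑ E ∈ Rs.image e, ((Nat.card G : ℝ) ^ E.card * nr E ^ (1 / (4 * (a : ℝ))) *
        ∏ v ∈ E, (nm v : ℝ) ^ (-((co a v : ℝ) / (a : ℝ)))) := by
        rw [Finset.mul_sum]
        exact Finset.sum_congr rfl fun E _ => by ring
    _ ≤ C * (B ^ (1 / (a : ℝ)) * Real.log B ^ ((N : ℝ) - 1 + δ)) * C₃ :=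
        mul_le_mul_of_nonneg_left (hsum _) (mul_nonneg hC.le hX)
    _ = _ := by ring

end H70.UE
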