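import Pool.Agent.H51.PF.Fit
import Pool.Agent.H70.UE.Gue

/-!
# H70-UE-FIN: the upper bound for every nilpotent group, from the P-level (MP_b39724_nt)

`G` transitive nilpotent of degree `n ≥ 2`, all elements of least index of order `p`. No series, no realisability, `K` any number field with enough roots of unity.
* `fin_upe`: the number of surjective homomorphisms. `ub_k`: one `K`.
* `ub_all`: for every `δ > 0` the number of the fields is at most `C B^(1/ind) (log B)^(β - 1 + δ)`, from `PUbe` for all finite `p`-groups.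
-/

set_option autoImplicit false

open scoped NumberField
open IsDedekindDomain Filter Topology H38.ML
open scoped Classical

noncomputable section

namespace H70.UE

open H63.MA H38.BB H38.BG H57.PC H57.BRA H63.BU H77.PC3 H57.CC H38.AS H77.S0T H77.AB H77.GN
  H77.UX H77.FLD H77.PLF H51.PF

section main

variable {n : ℕ} (G : Subgroup (Equiv.Perm (Fin n))) (K : IntermediateField ℚ QBar)
  [NumberField K]

/-- the number of surjective homomorphisms -/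
theorem fin_upe (hn : 2 ≤ n) (hG : MulAction.IsPretransitive G (Fin n))
    (hnil : Group.IsNilpotent G) {p : ℕ} (hp : p.Prime) (hp2 : MOne p K) {ζ : K}
    (hζ : IsPrimitiveRoot ζ p) {M : ℕ} {z₂ : K} (hz2 : IsPrimitiveRoot z₂ (p ^ M)) {N : ℕ}
    {P H : Type} [Group P] [Group H] (Q : GX p N G P H) (hP : IsPGroup p P) (hN : 1 ≤ N)
    (hU : PUbe p M Q.cP)
    (hI : ∀ h : G, (h ≠ 1 ∧ ind (h : Equiv.Perm (Fin n)) = indG G) ↔
      ∃ i, IsConj h (Q.cl.g i))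
    (z : K) (hz : IsPrimitiveRoot z (Nat.card G)) (i₀ : Fin n) :
    (∀ B, (CfinS G K i₀ B).Finite) ∧ ∀ δ : ℝ, 0 < δ → ∃ C : ℝ, 0 < C ∧ ∀ B : ℝ, 3 ≤ B →
      ((CfinS G K i₀ B).ncard : ℝ) ≤
        C * (B ^ (1 / (indG G : ℝ)) * Real.log B ^ ((N : ℝ) - 1 + δ)) := by
  obtain ⟨ha, -, hmin, -, hJ⟩ := pidx_pos hn G hG
  have hfac : {v : Pl K | ((n.factorial : ℕ) : 𝓞 K) ∈ v.asIdeal}.Finite :=
    finite_above (K := K) (Nat.factorial_ne_zero n)
  obtain ⟨D, hD0⟩ := H38.BB.exists_RD_of K hp hp2 hζ hfac.toFinset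
  have hD : ∀ v : Pl K, ((n.factorial : ℕ) : 𝓞 K) ∈ v.asIdeal → v ∈ D.S0 := fun v hv =>
    hD0 v (by
      rw [Set.Finite.mem_toFinset]
      exact hv)
  have hS : ∀ v : Pl K, ((Nat.card G : ℕ) : 𝓞 K) ∈ v.asIdeal → v ∈ D.S0 := fun v hv => by
    apply hD v
    obtain ⟨k, hk⟩ := esp_dvd G
    rw [hk]
    push_cast
    exact Ideal.mul_mem_right _ _ hv
  obtain ⟨Q'⟩ := exists_DP K QBar
  obtain ⟨L, -⟩ := lds_of hp hζ D.toRD0 Q'
  have hup := fun (δ : ℝ) (hδ : 0 < δ) =>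
    guxe hp hζ hz2 D L hnil Q hP hN hU z hz hS (indG G) ha
      (fun H => n - orbs (H.map G.subtype))
      (fun H hH => by
        have := hJ H hH
        omega)
      (fun g hg h => by
        refine (hI g).1 ⟨hg, le_antisymm ?_ (hmin g hg)⟩
        have h1 : (Subgroup.zpowers g).map G.subtype =
            Subgroup.zpowers (g : Equiv.Perm (Fin n)) := by
          rw [MonoidHom.map_zpowers]
          rfl
        rw [h1] at h
        exact h) δ hδ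
  have hmem : ∀ B, ∀ φ ∈ CfinS G K i₀ B, H38.ML.FT φ ∧ Function.Surjective φ ∧
      ∀ T : Finset (Pl K), (∀ v ∈ T, v ∉ D.S0) →
        ∏ v ∈ T, (nm v : ℝ) ^ (n - orbs (((inr L v).map φ).map G.subtype)) ≤ B := by
    intro B φ hφ
    obtain ⟨h3, h4, h5⟩ := hφ
    exact ⟨h3, h4, fun T hT => (dsm_lo hn G hG K D.toRD0 L i₀ φ h4 h3 T hT).trans h5⟩
  -- the sets are finite
  have hfin : ∀ B, (CfinS G K i₀ B).Finite := by
    obtain ⟨C, hC, hup1⟩ := hup 1 one_pos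
    have h1 : ∀ B, 3 ≤ B → (CfinS G K i₀ B).Finite := by
      intro B hB
      by_contra hinf
      obtain ⟨F, hF1, hF2⟩ := Set.Infinite.exists_subset_card_eq hinf
        (⌊C * (B ^ (1 / (indG G : ℝ)) * Real.log B ^ ((N : ℝ) - 1 + 1))⌋₊ + 1)
      have h2 := hup1 B hB F (fun φ hφ => hmem B φ (hF1 hφ))
      rw [hF2] at h2
      push_cast at h2
      have h3 := Nat.lt_floor_add_one
        (C * (B ^ (1 / (indG G : ℝ)) * Real.log B ^ ((N : ℝ) - 1 + 1)))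
      linarith
    intro B
    refine (h1 (max B 3) (le_max_right _ _)).subset fun φ hφ =>
      ⟨hφ.1, hφ.2.1, hφ.2.2.trans (le_max_left _ _)⟩
  refine ⟨hfin, fun δ hδ => ?_⟩
  obtain ⟨C, hC, hup1⟩ := hup δ hδ
  refine ⟨C, hC, fun B hB => ?_⟩
  rw [Set.ncard_eq_toFinset_card _ (hfin B)]
  exact hup1 B hB _ fun φ hφ => hmem B φ ((hfin B).mem_toFinset.1 hφ)

end main

/-- the upper bound over one `K` -/
theorem ub_k (n : ℕ) (hn : 2 ≤ n) (G : Subgroup (Equiv.Perm (Fin n)))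
    (hG : MulAction.IsPretransitive G (Fin n)) (hnil : Group.IsNilpotent G) (p : ℕ)
    (hp : p.Prime) (hI : ∀ h ∈ Li G, h ^ p = 1) (S : Sylow p G) (M : ℕ) (hM : 2 ≤ M)
    (hPL : ∀ (N : ℕ) (c : CL p N S), 1 ≤ N → PUbe p M c)
    (K : IntermediateField ℚ (AlgebraicClosure ℚ)) [hKf : NumberField K]
    (hz : ∃ z : K, IsPrimitiveRoot z (Nat.card G)) (hz₂ : ∃ z : K, IsPrimitiveRoot z (p ^ M))
    (δ : ℝ) (hδ : 0 < δ) :
    ∃ C : ℝ, 0 < C ∧ ∀ B : ℝ, 3 ≤ B → ∃ k : ℕ,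
      Spec.nK K (AlgebraicClosure ℚ) G B = (k : ℕ∞) ∧
      (k : ℝ) ≤ C * (B ^ (1 / (Spec.indG G : ℝ)) *
        Real.log B ^ ((Spec.betaAll K (AlgebraicClosure ℚ) G : ℝ) - 1 + δ)) := by
  have : NeZero p := ⟨hp.ne_zero⟩
  have : Fact p.Prime := ⟨hp⟩
  obtain ⟨ha, ⟨g₀, hg₀, hg₀'⟩, hmin, hcj, hJ⟩ := pidx_pos hn G hG
  obtain ⟨N, g, hgΛ, uni, hI'⟩ := ncl G {h : G | h ≠ 1 ∧ ind (h : Equiv.Perm (Fin n)) = indG G}
    (fun h hh => hh.1) (by
      rintro h ⟨h1, h2⟩ k hk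
      refine ⟨?_, ?_⟩
      · intro hk1
        rw [hk1] at hk
        exact h1 (isConj_one_left.1 hk)
      · obtain ⟨x, rfl⟩ := isConj_iff.1 hk
        exact hcj h x h1 h2)
  have hcardpos : 0 < Nat.card G := Nat.card_pos
  have hpd : p ∣ Nat.card G := by
    have h2 := hI g₀ ⟨hg₀, hg₀'⟩
    have h3 : orderOf g₀ = p := orderOf_eq_prime h2 hg₀
    rw [← h3]
    exact orderOf_dvd_natCard g₀
  have hSn := nil_normal hnil hp S
  have hgS : ∀ i, g i ∈ (S : Subgroup G) := by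
    intro i
    refine le_syl hp S hSn (Subgroup.zpowers (g i)) ?_ (Subgroup.mem_zpowers _)
    rintro ⟨_, k, rfl⟩
    refine ⟨1, Subtype.ext ?_⟩
    show (g i ^ k) ^ p ^ 1 = 1
    rw [pow_one, ← zpow_natCast, ← zpow_mul, mul_comm, zpow_mul, zpow_natCast,
      hI _ ⟨(hgΛ i).1, (hgΛ i).2⟩, one_zpow]
  obtain ⟨Q, hQ, -⟩ := exists_gx2 hp hnil hpd S g
    (fun i => hI _ ⟨(hgΛ i).1, (hgΛ i).2⟩) (fun i => (hgΛ i).1) uni hgS
  have hIQ : ∀ h : G, (h ≠ 1 ∧ ind (h : Equiv.Perm (Fin n)) = indG G) ↔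
      ∃ i, IsConj h (Q.cl.g i) := by
    intro h
    rw [hQ]
    exact hI' h
  have hP : IsPGroup p S := S.isPGroup'
  have hN : 1 ≤ N := by
    obtain ⟨i, -⟩ := (hI' g₀).1 ⟨hg₀, hg₀'⟩
    exact Nat.one_le_iff_ne_zero.2 fun h => by
      subst h
      exact i.elim0
  obtain ⟨c₀, hc₀, hnk⟩ := nk2 G hG
  have i₀ : Fin n := ⟨0, by omega⟩
  obtain ⟨z, hz⟩ := hz
  obtain ⟨z₂, hz2⟩ := hz₂
  have hp2 : MOne p K := mone_of hp hM hz2
  obtain ⟨r, hr⟩ := hpd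
  have hζ : IsPrimitiveRoot (z ^ r) p := hz.pow hcardpos (by rw [hr]; ring)
  obtain ⟨hfin, hup⟩ := fin_upe G K hn hG hnil hp hp2 hζ hz2 Q hP hN (hPL N Q.cP hN) hIQ z hz i₀
  have hβ := lbet G K z hz g uni hI'
  obtain ⟨C, hC, hup1⟩ := hup δ hδ
  refine ⟨C, hC, fun B hB => ?_⟩
  obtain ⟨k, hk1, hk2⟩ := hnk K hKf i₀ B (hfin B)
  refine ⟨k, hk1, ?_⟩
  have h1 : k ≤ (CfinS G K i₀ B).ncard := by
    have h2 : k * c₀ = (CfinS G K i₀ B).ncard := hk2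
    rw [← h2]
    exact Nat.le_mul_of_pos_right k hc₀
  have h2 : (k : ℝ) ≤ ((CfinS G K i₀ B).ncard : ℝ) := by exact_mod_cast h1
  have h3 := h2.trans (hup1 B hB)
  rw [hβ]
  exact h3

/-- THE UPPER BOUND FOR EVERY NILPOTENT GROUP, from the P-level theorem `PUbe` -/
theorem ub_all (n : ℕ) (hn : 2 ≤ n) (G : Subgroup (Equiv.Perm (Fin n)))
    (hG : MulAction.IsPretransitive G (Fin n)) (hnil : Group.IsNilpotent G) (p : ℕ)
    (hp : p.Prime) (hI : ∀ h ∈ Li G, h ^ p = 1)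
    (hPL : ∀ (P : Type) [Group P] [Finite P], IsPGroup p P →
      ∃ M : ℕ, 2 ≤ M ∧ ∀ (N : ℕ) (c : CL p N P), 1 ≤ N → PUbe p M c) :
    ∃ m : ℕ, 0 < m ∧ ∀ (K : IntermediateField ℚ (AlgebraicClosure ℚ)) [NumberField K],
      (∃ z : K, IsPrimitiveRoot z m) → ∀ δ : ℝ, 0 < δ → ∃ C : ℝ, 0 < C ∧ ∀ B : ℝ, 3 ≤ B →
        ∃ k : ℕ, Spec.nK K (AlgebraicClosure ℚ) G B = (k : ℕ∞) ∧
          (k : ℝ) ≤ C * (B ^ (1 / (Spec.indG G : ℝ)) *
            Real.log B ^ ((Spec.betaAll K (AlgebraicClosure ℚ) G : ℝ) - 1 + δ)) := by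
  have : Fact p.Prime := ⟨hp⟩
  obtain ⟨S⟩ : Nonempty (Sylow p G) := inferInstance
  obtain ⟨M, hM, hPLS⟩ := hPL S S.isPGroup'
  have hcard : 0 < Nat.card G := Nat.card_pos
  have hpm : 0 < p ^ M := pow_pos hp.pos M
  refine ⟨Nat.card G * p ^ M, Nat.mul_pos hcard hpm, fun K hKf hz δ hδ => ?_⟩
  obtain ⟨z, hz⟩ := hz
  have hpos : 0 < Nat.card G * p ^ M := Nat.mul_pos hcard hpm
  exact ub_k n hn G hG hnil p hp hI S M hM hPLS K
    ⟨z ^ p ^ M, hz.pow hpos (by rw [mul_comm])⟩ ⟨z ^ Nat.card G, hz.pow hpos rfl⟩ δ hδ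

end H70.UE
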